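import Pool.Agent.OST.ShowT2

/-!
# The symmetric natural operator space tensor norms

`Fam proj`, `Fam mn`: the families of the norms obtained from the projective and from the minimal norm by one-sided
hulls. `word n true`, `word n false`: the alternating words of length `n` in the operations `A = /(\·)\` and
`B = /(·/)\`, applied to the minimal norm, with outer letter `A` and `B`.
-/

set_option autoImplicit false

namespace Pool.Agent.Results.MP_54aa1b_an.SymmetricNorms

open OpSp

/-- (1) The symmetric members of the family of `proj`. (2) The symmetric members of the family of `min`. (3) If the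
two words of length `n ≥ 1` are equal then all longer words are equal to them. (4) At most one symmetric natural norm
is not among the six two-sided natural norms. (5) Question Q1 is a question about the words. -/
theorem result :
    (∀ α : RN, Fam proj α → (Symm α ↔ α = proj ∨ α = inj proj ∨ α = prj (inj proj))) ∧
    (∀ α : RN, Fam mn α → (Symm α ↔ α = mn ∨ α = prj mn ∨ α = inj (prj mn) ∨
      ∃ n, 1 ≤ n ∧ word n true = word n false ∧ α = word n true)) ∧
    (∀ n, 1 ≤ n → word n true = word n false → ∀ m, n ≤ m → ∀ b, word m b = word n true) ∧
    (∀ α β : RN, Fam proj α ∨ Fam mn α → Fam proj β ∨ Fam mn β → Symm α → Symm β →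
      ¬ Six α → ¬ Six β → α = β) ∧
    ((∀ α : RN, Fam proj α ∨ Fam mn α → Symm α → Six α) ↔
      ∀ n, 1 ≤ n → word n true = word n false → Six (word n true)) :=
  ⟨fun _ h => proj_fam h, fun _ h => mn_fam_iff h, fun _ hn he _ hm b => word_stable hn he hm b,
    fun _ _ => exotic_unique, q1_iff⟩

end Pool.Agent.Results.MP_54aa1b_an.SymmetricNorms
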